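import Pool.Agent.T6.H31.TC.Main

set_option autoImplicit false

/-!
# All admissible symbols (problem MP_6e4ab6_nt, complete answer)

The lists `Fams`, `Spor`, `Myers` and the predicates `eqv`, `Blk`, `Match`, `Blk4`, `Match4`,
`famv`, `spv`, `spv4`, `M2L`, `T1`, `Target` are in `Pool/Agent/T6/H31/TC/Defs.lean`.
-/

namespace Pool.Agent.Results.MP_6e4ab6_nt.AllSymbols

open Pool.Agent.T6.H31

/-- Conditions 2 and 3 of the definition of an admissible symbol, for positive integers. -/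
structure Basic (m s₁ t₁ s₂ t₂ s₃ t₃ : ℕ) : Prop where
  pos : 0 < s₁ ∧ 0 < t₁ ∧ 0 < s₂ ∧ 0 < t₂ ∧ 0 < s₃ ∧ 0 < t₃
  adjacent : s₁ ≠ t₁ ∧ t₁ ≠ s₂ ∧ s₂ ≠ t₂ ∧ t₂ ≠ s₃ ∧ s₃ ≠ t₃ ∧ t₃ ≠ s₁
  lt_half : 2 * s₁ < m ∧ 2 * t₁ < m ∧ 2 * s₂ < m ∧ 2 * t₂ < m ∧ 2 * s₃ < m ∧ 2 * t₃ < m

/-- The symbol `(m; s₁, t₁, s₂, t₂, s₃, t₃)` is admissible (conditions 1 - 4). -/
structure Admissible (m s₁ t₁ s₂ t₂ s₃ t₃ : ℕ) : Prop extends Basic m s₁ t₁ s₂ t₂ s₃ t₃ where
  cos_eq : Real.cos (s₁ * Real.pi / m) * Real.cos (s₂ * Real.pi / m) * Real.cos (s₃ * Real.pi / m) =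
    Real.cos (t₁ * Real.pi / m) * Real.cos (t₂ * Real.pi / m) * Real.cos (t₃ * Real.pi / m)
  even_sum : Even (s₁ + s₂ + s₃ + t₁ + t₂ + t₃)

/-- `cos (s * pi / m) = sin (pi * ang m s)` -/
noncomputable def ang (m s : ℕ) : ℝ := 1 / 2 - (s : ℝ) / (m : ℝ)

/-- the symbol is in the explicit list -/
def Listed (m s₁ t₁ s₂ t₂ s₃ t₃ : ℕ) : Prop :=
  TC.Target ![ang m s₁, ang m s₂, ang m s₃, ang m t₁, ang m t₂, ang m t₃]

theorem sin_ang (m s : ℕ) : Real.sin (Real.pi * ang m s) = Real.cos (s * Real.pi / m) := by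
  have h : Real.pi * ang m s = Real.pi / 2 - s * Real.pi / m := by unfold ang; ring
  rw [h, Real.sin_pi_div_two_sub]

theorem cos_pos' {m s : ℕ} (h : 2 * s < m) : 0 < Real.cos (s * Real.pi / m) := by
  have hm : (0 : ℝ) < m := by
    have : 0 < m := by omega
    exact_mod_cast this
  have h2 : (2 : ℝ) * s < m := by exact_mod_cast h
  apply Real.cos_pos_of_mem_Ioo
  constructor
  · have : 0 ≤ (s : ℝ) * Real.pi / m := by positivity
    have := Real.pi_pos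
    linarith
  · rw [div_lt_div_iff₀ hm (by norm_num : (0 : ℝ) < 2)]
    nlinarith [Real.pi_pos]

/-- The admissible symbols are exactly the symbols with conditions 2, 3, 4 in the list. -/
theorem result (m s₁ t₁ s₂ t₂ s₃ t₃ : ℕ) :
    Admissible m s₁ t₁ s₂ t₂ s₃ t₃ ↔
      Basic m s₁ t₁ s₂ t₂ s₃ t₃ ∧ Even (s₁ + s₂ + s₃ + t₁ + t₂ + t₃) ∧
        Listed m s₁ t₁ s₂ t₂ s₃ t₃ := by
  have key : Basic m s₁ t₁ s₂ t₂ s₃ t₃ →
      ((Real.cos (s₁ * Real.pi / m) * Real.cos (s₂ * Real.pi / m) * Real.cos (s₃ * Real.pi / m) =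
        Real.cos (t₁ * Real.pi / m) * Real.cos (t₂ * Real.pi / m) * Real.cos (t₃ * Real.pi / m)) ↔
        Listed m s₁ t₁ s₂ t₂ s₃ t₃) := by
    intro hb
    obtain ⟨-, -, l1, l2, l3, l4, l5, l6⟩ := hb
    have p1 := cos_pos' l1
    have p2 := cos_pos' l2
    have p3 := cos_pos' l3
    have p4 := cos_pos' l4
    have p5 := cos_pos' l5
    have p6 := cos_pos' l6
    have hq : ∀ i, ∃ q : ℚ,
        (![ang m s₁, ang m s₂, ang m s₃, ang m t₁, ang m t₂, ang m t₃] : Fin 6 → ℝ) i = q := by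
      have h : ∀ s : ℕ, ∃ q : ℚ, ang m s = q := fun s =>
        ⟨1 / 2 - (s : ℚ) / (m : ℚ), by unfold ang; push_cast; ring⟩
      intro i
      fin_cases i
      · exact h s₁
      · exact h s₂
      · exact h s₃
      · exact h t₁
      · exact h t₂
      · exact h t₃
    have hnz : TC.NZ (![ang m s₁, ang m s₂, ang m s₃, ang m t₁, ang m t₂, ang m t₃] : Fin 6 → ℝ) := by
      intro i
      fin_cases i
      · show Real.sin (Real.pi * ang m s₁) ≠ 0
        rw [sin_ang]; exact p1.ne'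
      · show Real.sin (Real.pi * ang m s₂) ≠ 0
        rw [sin_ang]; exact p3.ne'
      · show Real.sin (Real.pi * ang m s₃) ≠ 0
        rw [sin_ang]; exact p5.ne'
      · show Real.sin (Real.pi * ang m t₁) ≠ 0
        rw [sin_ang]; exact p2.ne'
      · show Real.sin (Real.pi * ang m t₂) ≠ 0
        rw [sin_ang]; exact p4.ne'
      · show Real.sin (Real.pi * ang m t₃) ≠ 0
        rw [sin_ang]; exact p6.ne'
    have hmain := TC.main _ hq hnz
    have hsol : TC.SolY (![ang m s₁, ang m s₂, ang m s₃, ang m t₁, ang m t₂, ang m t₃] : Fin 6 → ℝ) ↔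
        |Real.sin (Real.pi * ang m s₁) * Real.sin (Real.pi * ang m s₂) * Real.sin (Real.pi * ang m s₃)| =
        |Real.sin (Real.pi * ang m t₁) * Real.sin (Real.pi * ang m t₂) * Real.sin (Real.pi * ang m t₃)| :=
      Iff.rfl
    rw [sin_ang, sin_ang, sin_ang, sin_ang, sin_ang, sin_ang,
      abs_of_pos (by positivity), abs_of_pos (by positivity)] at hsol
    exact hsol.symm.trans hmain
  constructor
  · intro h
    exact ⟨h.toBasic, h.even_sum, (key h.toBasic).1 h.cos_eq⟩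
  · rintro ⟨hb, he, hl⟩
    exact ⟨hb, (key hb).2 hl, he⟩

end Pool.Agent.Results.MP_6e4ab6_nt.AllSymbols
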